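import Pool.Agent.Helper630.Remotal.Nm

/-!
The Banach space and the uniquely remotal set, from abstract data.
-/

set_option autoImplicit false

open Filter Topology

namespace Pool.Agent.Helper630.Remotal

/-- Absolutely summable families with sum zero. -/
def MM (T : Type) : Submodule ℝ (T → ℝ) where
  carrier := {v | Summable (fun i => |v i|) ∧ ∑' i, v i = 0}
  add_mem' := by
    rintro v w ⟨hv, hv0⟩ ⟨hw, hw0⟩
    refine ⟨summable_add hv hw, ?_⟩
    have h1 : Summable v := Summable.of_abs hv
    have h2 : Summable w := Summable.of_abs hw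
    simp only [Pi.add_apply]
    rw [h1.tsum_add h2, hv0, hw0, add_zero]
  zero_mem' := by
    refine ⟨?_, ?_⟩
    · simpa using (summable_zero : Summable (fun _ : T => (0:ℝ)))
    · simp
  smul_mem' := by
    rintro c v ⟨hv, hv0⟩
    refine ⟨?_, ?_⟩
    · simp only [Pi.smul_apply, smul_eq_mul, abs_mul]
      exact hv.mul_left _
    · simp only [Pi.smul_apply, smul_eq_mul, tsum_mul_left, hv0, mul_zero]

/-- Type alias carrying the new norm. -/
def XX {T : Type} (_p : ℕ → T → ℝ) (_L : T → ℕ → ℝ) : Type := MM T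

variable {T : Type} (p : ℕ → T → ℝ) (L : T → ℕ → ℝ)

noncomputable instance : AddCommGroup (XX p L) := inferInstanceAs (AddCommGroup (MM T))
noncomputable instance : Module ℝ (XX p L) := inferInstanceAs (Module ℝ (MM T))

/-- underlying function -/
def XX.val {p : ℕ → T → ℝ} {L : T → ℕ → ℝ} (x : XX p L) : T → ℝ := (show MM T from x).1

noncomputable instance : Norm (XX p L) := ⟨fun x => NN p L x.val⟩

section
variable {p L}

theorem XX.norm_def (x : XX p L) : ‖x‖ = NN p L x.val := rfl
theorem XX.summable (x : XX p L) : Summable (fun i => |x.val i|) := (show MM T from x).2.1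
theorem XX.sum (x : XX p L) : ∑' i, x.val i = 0 := (show MM T from x).2.2
theorem XX.val_add (x y : XX p L) : (x + y).val = x.val + y.val := rfl
theorem XX.val_sub (x y : XX p L) : (x - y).val = x.val - y.val := rfl
theorem XX.val_smul (c : ℝ) (x : XX p L) : (c • x).val = c • x.val := rfl
theorem XX.ext {x y : XX p L} (h : x.val = y.val) : x = y := Subtype.ext h
theorem XX.val_zero : (0 : XX p L).val = 0 := rfl

/-- constructor -/
def XX.mk (v : T → ℝ) (h1 : Summable (fun i => |v i|)) (h2 : ∑' i, v i = 0) : XX p L :=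
  (⟨v, h1, h2⟩ : MM T)

theorem XX.val_mk (v : T → ℝ) (h1 : Summable (fun i => |v i|)) (h2 : ∑' i, v i = 0) :
    (XX.mk v h1 h2 : XX p L).val = v := rfl

theorem l1_nonneg (v : T → ℝ) : 0 ≤ l1 v := tsum_nonneg (fun _ => abs_nonneg _)

theorem eq_zero_of_l1 {v : T → ℝ} (hv : Summable (fun i => |v i|)) (h : l1 v = 0) : v = 0 := by
  have h1 := hv.hasSum_iff.2 h
  have h2 := (hasSum_zero_iff_of_nonneg (fun i => abs_nonneg (v i))).1 h1
  funext i
  exact abs_eq_zero.1 (congrFun h2 i)

variable (hp0 : ∀ m i, 0 < p m i) (hp1 : ∀ m i, p m i ≤ 1) (hL : ∀ i m, |L i m| ≤ 1)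
include hp0 hp1 hL

theorem XX.core : NormedSpace.Core ℝ (XX p L) where
  norm_nonneg x := by
    rw [XX.norm_def]
    have := NN_ge hp0 hp1 hL x.summable
    have := l1_nonneg x.val
    linarith
  norm_smul c x := by
    rw [XX.norm_def, XX.norm_def, XX.val_smul, NN_smul hp0 hp1 hL, Real.norm_eq_abs]
  norm_triangle x y := by
    rw [XX.norm_def, XX.norm_def, XX.norm_def, XX.val_add]
    exact NN_add hp0 hp1 hL x.summable y.summable
  norm_eq_zero_iff x := by
    constructor
    · intro h
      rw [XX.norm_def] at h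
      have h1 := NN_ge hp0 hp1 hL x.summable
      have h2 := l1_nonneg x.val
      have h3 : l1 x.val = 0 := by linarith
      exact XX.ext (eq_zero_of_l1 x.summable h3)
    · rintro rfl
      rw [XX.norm_def, XX.val_zero]
      have h1 := NN_smul hp0 hp1 hL 0 (0 : T → ℝ)
      simpa using h1

end

/-- embedding in `lp 1`. -/
noncomputable def toLp1 (v : T → ℝ) (h : Summable (fun i => |v i|)) : lp (fun _ : T => ℝ) 1 :=
  ⟨v, memℓp_gen (by simpa using h)⟩

theorem norm_lp1 (y : lp (fun _ : T => ℝ) 1) : ‖y‖ = l1 (fun i => y i) := by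
  rw [lp.norm_eq_tsum_rpow (by simp)]
  simp [l1]

theorem summable_lp1 (y : lp (fun _ : T => ℝ) 1) : Summable (fun i => |y i|) := by
  have h := lp.memℓp y
  rw [memℓp_gen_iff (by simp)] at h
  simpa using h

theorem complete_XX (hp0 : ∀ m i, 0 < p m i) (hp1 : ∀ m i, p m i ≤ 1) (hL : ∀ i m, |L i m| ≤ 1) :
    letI := NormedAddCommGroup.ofCore (XX.core hp0 hp1 hL)
    CompleteSpace (XX p L) := by
  letI := NormedAddCommGroup.ofCore (XX.core hp0 hp1 hL)
  apply Metric.complete_of_cauchySeq_tendsto
  intro u hu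
  have hd : ∀ m n, dist (toLp1 (u m).val (u m).summable) (toLp1 (u n).val (u n).summable) ≤
      dist (u m) (u n) := by
    intro m n
    rw [dist_eq_norm, dist_eq_norm, norm_lp1]
    change l1 ((u m).val - (u n).val) ≤ NN p L ((u m) - (u n)).val
    rw [XX.val_sub]
    have hs : Summable (fun i => |((u m).val - (u n).val) i|) := (u m - u n).summable
    have := NN_ge hp0 hp1 hL hs
    have := l1_nonneg ((u m).val - (u n).val)
    linarith
  have hc : CauchySeq (fun n => toLp1 (u n).val (u n).summable) := by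
    rw [Metric.cauchySeq_iff] at hu ⊢
    intro ε hε
    obtain ⟨N, hN⟩ := hu ε hε
    exact ⟨N, fun m hm n hn => (hd m n).trans_lt (hN m hm n hn)⟩
  obtain ⟨y, hy⟩ := cauchySeq_tendsto_of_complete hc
  have hy2 := (tendsto_iff_norm_sub_tendsto_zero).1 hy
  have hyn : ∀ n, ‖toLp1 (u n).val (u n).summable - y‖ = l1 ((u n).val - fun i => y i) := by
    intro n; rw [norm_lp1]; rfl
  simp only [hyn] at hy2
  have hys := summable_lp1 y
  have hsum : ∑' i, y i = 0 := by
    have h1 : ∀ n, |∑' i, y i| ≤ l1 ((u n).val - fun i => y i) := by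
      intro n
      have s1 : Summable (u n).val := Summable.of_abs (u n).summable
      have s2 : Summable (fun i => y i) := Summable.of_abs hys
      have s3 : Summable (fun i => |((u n).val - fun i => y i) i|) := (s1.sub s2).abs
      have h2 : ∑' i, ((u n).val - fun i => y i) i = -∑' i, y i := by
        simp only [Pi.sub_apply]
        rw [s1.tsum_sub s2, (u n).sum, zero_sub]
      have h3 : ‖∑' i, ((u n).val - fun i => y i) i‖ ≤ ∑' i, ‖((u n).val - fun i => y i) i‖ :=
        norm_tsum_le_tsum_norm s3
      rw [h2, Real.norm_eq_abs, abs_neg] at h3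
      exact h3
    have h4 := ge_of_tendsto' hy2 h1
    exact abs_eq_zero.1 (le_antisymm h4 (abs_nonneg _))
  refine ⟨XX.mk (fun i => y i) hys hsum, ?_⟩
  rw [tendsto_iff_norm_sub_tendsto_zero]
  have h5 : ∀ n, ‖u n - XX.mk (fun i => y i) hys hsum‖ ≤ 3 * l1 ((u n).val - fun i => y i) := by
    intro n
    change NN p L (u n - XX.mk (fun i => y i) hys hsum).val ≤ _
    rw [XX.val_sub, XX.val_mk]
    exact NN_le hp0 hp1 hL (u n - (XX.mk (fun i => y i) hys hsum : XX p L)).summable
  have h6 : Tendsto (fun n => 3 * l1 ((u n).val - fun i => y i)) atTop (𝓝 0) := by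
    simpa using hy2.const_mul 3
  exact squeeze_zero (fun n => norm_nonneg _) h5 h6

/-- The general theorem. -/
theorem main_general (hT : Nonempty T)
    (hp0 : ∀ m i, 0 < p m i) (hp1 : ∀ m i, p m i ≤ 1) (hL : ∀ i m, |L i m| ≤ 1)
    (H : ∀ w : T → ℝ, Summable (fun i => |w i|) → ∑' i, w i = 1 →
      ∃ i, w i ≤ 0 ∧ ∀ m, L i m * SS p m w = -TT p L m w)
    (H2 : ∀ i k, (∀ m, L i m = L k m) → i = k) :
    ¬ (∀ (X : Type) [NormedAddCommGroup X] [NormedSpace ℝ X] [CompleteSpace X],
      ¬ FiniteDimensional ℝ X →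
      ∀ K : Set X,
        (∀ x : X, ∃! y : X, y ∈ K ∧ ∀ z ∈ K, dist x z ≤ dist x y) →
        ∃ a : X, K = {a}) := by
  classical
  intro hall
  obtain ⟨b⟩ := hT
  letI := NormedAddCommGroup.ofCore (XX.core hp0 hp1 hL)
  letI : NormedSpace ℝ (XX p L) := NormedSpace.ofCore (XX.core hp0 hp1 hL)
  haveI := complete_XX p L hp0 hp1 hL
  -- `T` is infinite
  have hinf : Infinite T := by
    by_contra hfin
    rw [not_infinite_iff_finite] at hfin
    haveI := Fintype.ofFinite T
    have hcard : (0:ℝ) < Fintype.card T := by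
      have : 0 < Fintype.card T := Fintype.card_pos_iff.2 ⟨b⟩
      exact_mod_cast this
    obtain ⟨i, hi, -⟩ := H (fun _ => 1 / (Fintype.card T : ℝ)) (Summable.of_finite)
      (by rw [tsum_fintype]; simp [hcard.ne'])
    have : 0 < 1 / (Fintype.card T : ℝ) := by positivity
    linarith
  have hun : ∀ i : T, Summable (fun k => |(un i : T → ℝ) k|) := by
    intro i
    apply summable_of_ne_finset_zero (s := {i})
    intro k hk
    have : k ≠ i := by simpa using hk
    simp [un, this]
  have hunsum : ∀ i : T, ∑' k, (un i : T → ℝ) k = 1 := by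
    intro i; unfold un; rw [tsum_pi_single]
  have hdiff : ∀ i : T, Summable (fun k => |(un i - un b : T → ℝ) k|) := fun i =>
    Summable.of_nonneg_of_le (fun _ => abs_nonneg _)
      (fun k => by simp only [Pi.sub_apply]; exact abs_sub _ _) ((hun i).add (hun b))
  have hdsum : ∀ i : T, ∑' k, (un i - un b : T → ℝ) k = 0 := by
    intro i
    simp only [Pi.sub_apply]
    rw [(Summable.of_abs (hun i)).tsum_sub (Summable.of_abs (hun b)), hunsum, hunsum, sub_self]
  -- the points
  let pt : T → XX p L := fun i => XX.mk (un i - un b) (hdiff i) (hdsum i)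
  have hptval : ∀ i, (pt i).val = un i - un b := fun i => rfl
  have hptinj : Function.Injective pt := by
    intro i k h
    have h1 : (un i - un b : T → ℝ) = un k - un b := congrArg XX.val h
    have h2 : (un i : T → ℝ) = un k := by simpa using h1
    by_contra hne
    have h3 := congrFun h2 i
    simp [un, hne] at h3
  have hdist : ∀ (x : XX p L) (i : T), dist x (pt i) = NN p L ((x.val + un b) - un i) := by
    intro x i
    rw [dist_eq_norm]
    change NN p L (x - pt i).val = _
    rw [XX.val_sub, hptval]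
    congr 1
    abel
  have hws : ∀ x : XX p L, Summable (fun i => |(x.val + un b) i|) := fun x =>
    summable_add x.summable (hun b)
  have hw1 : ∀ x : XX p L, ∑' i, (x.val + un b) i = 1 := by
    intro x
    simp only [Pi.add_apply]
    rw [(Summable.of_abs x.summable).tsum_add (Summable.of_abs (hun b)), x.sum, hunsum, zero_add]
  have hw0 : ∀ x : XX p L, ∃ k, (x.val + un b) k ≠ 0 := by
    intro x
    by_contra hcon
    push Not at hcon
    have := hw1 x
    simp only [hcon, tsum_zero] at this
    exact zero_ne_one this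
  -- infinite dimensional
  have hdim : ¬ FiniteDimensional ℝ (XX p L) := by
    intro hfd
    have hli : LinearIndependent ℝ (fun i : {i : T // i ≠ b} => pt i.1) := by
      rw [linearIndependent_iff']
      intro s g hg i hi
      have h1 := congrArg (fun x : XX p L => x.val i.1) hg
      have h2 : ∀ s : Finset {i : T // i ≠ b},
          (∑ k ∈ s, g k • pt k.1).val = ∑ k ∈ s, g k • (pt k.1).val := by
        intro s
        induction s using Finset.induction_on with
        | empty => rfl
        | insert a s ha ih =>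
          rw [Finset.sum_insert ha, Finset.sum_insert ha, XX.val_add, ih, XX.val_smul]
      simp only [h2, XX.val_zero, Pi.zero_apply, Finset.sum_apply, Pi.smul_apply, smul_eq_mul] at h1
      rw [Finset.sum_eq_single i] at h1
      · rw [hptval] at h1
        simpa [un, i.2] using h1
      · intro k _ hki
        have h3 : (i.1 : T) ≠ k.1 := fun h => hki (Subtype.ext h.symm)
        rw [hptval]
        simp [un, h3, i.2]
      · intro h; exact absurd hi h
    haveI : Infinite {i : T // i ≠ b} := by
      have : Set.Infinite ({b}ᶜ : Set T) := (Set.finite_singleton b).infinite_compl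
      exact this.to_subtype
    have hf : Finite {i : T // i ≠ b} := hli.finite
    exact not_finite {i : T // i ≠ b}
  obtain ⟨a, ha⟩ := hall (XX p L) hdim (Set.range pt) (by
    intro x
    obtain ⟨i, hi, hlab⟩ := H (x.val + un b) (hws x) (hw1 x)
    have hle : ∀ k, NN p L ((x.val + un b) - un k) ≤ rr p L (x.val + un b) :=
      fun k => NN_sub_single_le_rr hp0 hp1 hL (hws x) k
    have hge := NN_eq_of_eq hp0 hp1 hL (hws x) i hi (hw0 x) hlab
    refine ⟨pt i, ⟨⟨i, rfl⟩, ?_⟩, ?_⟩
    · rintro z ⟨k, rfl⟩
      rw [hdist, hdist]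
      exact (hle k).trans hge
    · rintro y ⟨⟨k, rfl⟩, hy⟩
      have h1 := hy (pt i) ⟨i, rfl⟩
      rw [hdist, hdist] at h1
      obtain ⟨-, hlab'⟩ := eq_of_NN_eq hp0 hp1 hL (hws x) k (hge.trans h1)
      have : k = i := by
        apply H2
        intro m
        obtain ⟨q, hq⟩ := hw0 x
        have hpos := SS_pos hp0 hp1 (hws x) m hq
        have h2 := (hlab' m).trans (hlab m).symm
        exact mul_right_cancel₀ hpos.ne' h2
      rw [this])
  -- contradiction
  have hsub : Subsingleton T := by
    constructor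
    intro i k
    have h1 : pt i ∈ ({a} : Set (XX p L)) := ha ▸ ⟨i, rfl⟩
    have h2 : pt k ∈ ({a} : Set (XX p L)) := ha ▸ ⟨k, rfl⟩
    exact hptinj ((Set.mem_singleton_iff.1 h1).trans (Set.mem_singleton_iff.1 h2).symm)
  exact not_finite T

end Pool.Agent.Helper630.Remotal
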