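import Pool.Agent.Helper630.Remotal.Wt
import Pool.Agent.Helper630.Remotal.Sp

/-!
The concrete data and the final theorem.
-/

set_option autoImplicit false

open Filter Topology

namespace Pool.Agent.Helper630.Remotal

/-- The index set: the label sequences of good codes. -/
def TI : Type := {F : ℕ → ℝ // ∃ t, Good t ∧ Lab t = F}

/-- a representing code -/
noncomputable def rep (F : TI) : Tr := F.2.choose

theorem rep_good (F : TI) : Good (rep F) := F.2.choose_spec.1
theorem rep_lab (F : TI) : Lab (rep F) = F.1 := F.2.choose_spec.2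

theorem rep_injective : Function.Injective rep := by
  intro F G h
  apply Subtype.ext
  rw [← rep_lab F, ← rep_lab G, h]

noncomputable def pI (m : ℕ) (F : TI) : ℝ := pw m (rep F)
def LI (F : TI) (m : ℕ) : ℝ := F.1 m

theorem LI_eq (F : TI) (m : ℕ) : Lh (pw m) (rep F) = LI F m := congrFun (rep_lab F) m

theorem exists_node (w : TI → ℝ) (hw : Summable (fun i => |w i|)) (hw1 : ∑' i, w i = 1) :
    ∃ i : TI, ∀ m, LI i m * SS pI m w = -TT pI LI m w := by
  classical
  have hwne : ∃ i, w i ≠ 0 := by
    by_contra hcon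
    push Not at hcon
    simp only [hcon, tsum_zero] at hw1
    exact zero_ne_one hw1
  have hcount : Set.Countable (Function.support w) := (Summable.of_abs hw).countable_support
  haveI : Countable (Function.support w) := hcount.to_subtype
  obtain ⟨ι, hι⟩ := exists_injective_nat (Function.support w)
  set c : ℕ → ℝ := Function.extend ι (fun i => w i.1) 0 with hc
  set f : ℕ → Tr := Function.extend ι (fun i => rep i.1) (fun _ => Tr.base) with hf
  have hcι : ∀ i, c (ι i) = w i.1 := fun i => hι.extend_apply _ _ _
  have hfι : ∀ i, f (ι i) = rep i.1 := fun i => hι.extend_apply _ _ _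
  have hcn : ∀ n, n ∉ Set.range ι → c n = 0 := by
    intro n hn
    rw [hc, Function.extend_apply' _ _ _ (by simpa using hn)]; rfl
  have hfn : ∀ n, n ∉ Set.range ι → f n = Tr.base := by
    intro n hn
    rw [hf, Function.extend_apply' _ _ _ (by simpa using hn)]
  have hsumc : Summable (fun n => |c n|) := by
    have h1 := (hι.summable_iff (f := fun n => |c n|) (fun n hn => by simp [hcn n hn])).1
    apply h1
    have h2 : ((fun n => |c n|) ∘ ι) = fun i : Function.support w => |w i.1| := by
      funext i; simp [hcι]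
    rw [h2]
    exact hw.subtype _
  have htsum : ∀ g : Tr → ℝ, ∑' n, c n * g (f n) = ∑' i, w i * g (rep i) := by
    intro g
    have h1 : Function.support (fun n => c n * g (f n)) ⊆ Set.range ι := by
      intro n hn
      by_contra hcon
      apply hn
      simp [hcn n hcon]
    rw [← hι.tsum_eq h1]
    simp only [hcι, hfι]
    exact tsum_subtype_eq_of_support_subset (f := fun i => w i * g (rep i))
      (s := Function.support w) (fun i hi => by
        rw [Function.mem_support] at hi ⊢
        exact left_ne_zero_of_mul hi)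
  have htsum' : ∀ g : Tr → ℝ, ∑' n, |c n| * g (f n) = ∑' i, |w i| * g (rep i) := by
    intro g
    have h1 : Function.support (fun n => |c n| * g (f n)) ⊆ Set.range ι := by
      intro n hn
      by_contra hcon
      apply hn
      simp [hcn n hcon]
    rw [← hι.tsum_eq h1]
    simp only [hcι, hfι]
    exact tsum_subtype_eq_of_support_subset (f := fun i => |w i| * g (rep i))
      (s := Function.support w) (fun i hi => by
        rw [Function.mem_support] at hi ⊢
        exact abs_ne_zero.1 (left_ne_zero_of_mul hi))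
  have hgood : Good (Tr.node f c) := by
    refine ⟨?_, hsumc, ?_, ?_⟩
    · intro n
      by_cases hn : n ∈ Set.range ι
      · obtain ⟨i, rfl⟩ := hn
        rw [hfι]; exact rep_good _
      · rw [hfn n hn]; trivial
    · obtain ⟨i, hi⟩ := hwne
      exact ⟨ι ⟨i, hi⟩, by rw [hcι]; exact hi⟩
    · intro m n hm hn hmn
      have h1 : m ∈ Set.range ι := by by_contra h; exact hm (hcn m h)
      have h2 : n ∈ Set.range ι := by by_contra h; exact hn (hcn n h)
      obtain ⟨i, rfl⟩ := h1
      obtain ⟨k, rfl⟩ := h2
      rw [hfι, hfι] at hmn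
      have := rep_injective hmn
      rw [Subtype.ext this]
  refine ⟨⟨Lab (Tr.node f c), Tr.node f c, hgood, rfl⟩, fun m => ?_⟩
  have hS : ∑' n, |c n| * pw m (f n) = SS pI m w := htsum' (pw m)
  have hT : ∑' n, c n * (pw m (f n) * Lh (pw m) (f n)) = TT pI LI m w := by
    have h1 := htsum (fun t => pw m t * Lh (pw m) t)
    rw [h1]
    unfold TT
    congr 1; funext i
    rw [LI_eq]; rfl
  obtain ⟨i, hi⟩ := hwne
  have hpos : 0 < SS pI m w :=
    SS_pos (fun m i => pw_pos m _) (fun m i => pw_le_one m _) hw m hi
  change Lh (pw m) (Tr.node f c) * _ = _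
  simp only [Lh]
  rw [hS, hT, div_mul_cancel₀ _ hpos.ne']

theorem final_H (w : TI → ℝ) (hw : Summable (fun i => |w i|)) (hw1 : ∑' i, w i = 1) :
    ∃ i : TI, w i ≤ 0 ∧ ∀ m, LI i m * SS pI m w = -TT pI LI m w := by
  classical
  obtain ⟨i, hi⟩ := exists_node w hw hw1
  refine ⟨i, ?_, hi⟩
  by_contra hcon
  push Not at hcon
  have hp0 : ∀ m (i : TI), 0 < pI m i := fun m i => pw_pos m _
  have hp1 : ∀ m (i : TI), pI m i ≤ 1 := fun m i => pw_le_one m _
  have hL : ∀ (i : TI) m, |LI i m| ≤ 1 := fun i m => by
    rw [← LI_eq]; exact abs_Lab_le _ _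
  have hu : Summable (fun k => if k = i then 0 else |w k|) := by
    refine Summable.of_nonneg_of_le (fun k => ?_) (fun k => ?_) hw
    · split_ifs; exacts [le_rfl, abs_nonneg _]
    · split_ifs; exacts [abs_nonneg _, le_rfl]
  obtain ⟨m, hm⟩ := not_dominated (rep i) (rep_good i) TI rep (fun k => if k = i then 0 else |w k|)
    (fun k => by split_ifs; exacts [le_rfl, abs_nonneg _]) hu
    (fun k hk h => by
      have := rep_injective h
      rw [if_pos this] at hk; exact hk rfl) (w i) hcon
  have hS := (summable_S hp0 hp1 hw m).tsum_eq_add_tsum_ite i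
  have hT := (summable_T hp0 hp1 hL hw m).tsum_eq_add_tsum_ite i
  set A := ∑' k, (if k = i then 0 else |w k|) * pw m (rep k) with hA
  have hA' : ∑' k, (if k = i then 0 else |w k| * pI m k) = A := by
    rw [hA]; congr 1; funext k
    split_ifs
    · rw [zero_mul]
    · rfl
  set B := ∑' k, (if k = i then 0 else w k * (pI m k * LI k m)) with hB
  have hsA : Summable (fun k => (if k = i then 0 else |w k| * pI m k)) := by
    refine Summable.of_nonneg_of_le (fun k => ?_) (fun k => ?_) (summable_S hp0 hp1 hw m)
    · split_ifs; exacts [le_rfl, mul_nonneg (abs_nonneg _) (hp0 m k).le]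
    · split_ifs; exacts [mul_nonneg (abs_nonneg _) (hp0 m k).le, le_rfl]
  have hAB : |B| ≤ A := by
    have hle : ∀ k, |(if k = i then 0 else w k * (pI m k * LI k m))| ≤
        (if k = i then 0 else |w k| * pI m k) := by
      intro k
      split_ifs
      · simp
      · rw [abs_mul, abs_mul, abs_of_pos (hp0 m k)]
        refine mul_le_mul_of_nonneg_left ?_ (abs_nonneg _)
        have := mul_le_mul_of_nonneg_left (hL k m) (hp0 m k).le
        linarith
    have hsB : Summable (fun k => |(if k = i then 0 else w k * (pI m k * LI k m))|) :=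
      Summable.of_nonneg_of_le (fun _ => abs_nonneg _) hle hsA
    have h5 : ‖∑' k, (if k = i then 0 else w k * (pI m k * LI k m))‖ ≤
        ∑' k, ‖(if k = i then 0 else w k * (pI m k * LI k m))‖ := norm_tsum_le_tsum_norm hsB
    rw [← hA']
    exact h5.trans (Summable.tsum_le_tsum hle hsB hsA)
  have h1 := hi m
  unfold SS TT at h1
  rw [hS, hT, hA', abs_of_pos hcon] at h1
  have hlab : |Lab (rep i) m| = |LI i m| := by rw [rep_lab]; rfl
  rw [hlab] at hm
  change A < w i * (pI m i * |LI i m|) at hm
  -- 2 w_i p_i L_i = - L_i A - B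
  have h2 : 2 * (w i * (pI m i * LI i m)) = -(LI i m * A) - B := by linarith
  have h3 : |2 * (w i * (pI m i * LI i m))| = 2 * (w i * (pI m i * |LI i m|)) := by
    rw [abs_mul, abs_mul, abs_mul, abs_of_pos (hp0 m i), abs_of_pos hcon]; simp
  have h4 : |-(LI i m * A) - B| ≤ A + A := by
    have hA0 : 0 ≤ A := (abs_nonneg _).trans hAB
    have h5 : |-(LI i m * A) - B| ≤ |-(LI i m * A)| + |B| := abs_sub _ _
    have h6 : |-(LI i m * A)| ≤ A := by
      rw [abs_neg, abs_mul, abs_of_nonneg hA0]
      have := mul_le_mul_of_nonneg_right (hL i m) hA0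
      linarith
    linarith
  rw [← h2, h3] at h4
  linarith

theorem final :
    ¬ (∀ (X : Type) [NormedAddCommGroup X] [NormedSpace ℝ X] [CompleteSpace X],
      ¬ FiniteDimensional ℝ X →
      ∀ K : Set X,
        (∀ x : X, ∃! y : X, y ∈ K ∧ ∀ z ∈ K, dist x z ≤ dist x y) →
        ∃ a : X, K = {a}) := by
  refine main_general (T := TI) pI LI ⟨⟨Lab Tr.base, Tr.base, trivial, rfl⟩⟩
    (fun m i => pw_pos m _) (fun m i => pw_le_one m _) (fun i m => ?_) final_H ?_
  · rw [← LI_eq]; exact abs_Lab_le _ _
  · intro i k h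
    exact Subtype.ext (funext h)

end Pool.Agent.Helper630.Remotal
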