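import Mathlib

/-!
The new norm on the sum-zero part of `ℓ¹(T)` and its distance formulas.
-/

set_option autoImplicit false

open Filter Topology

namespace Pool.Agent.Helper630.Remotal

variable {T : Type} (p : ℕ → T → ℝ) (L : T → ℕ → ℝ)

/-- weighted masses -/
noncomputable def SS (m : ℕ) (v : T → ℝ) : ℝ := ∑' i, |v i| * p m i
noncomputable def TT (m : ℕ) (v : T → ℝ) : ℝ := ∑' i, v i * (p m i * L i m)
noncomputable def UU (m : ℕ) (v : T → ℝ) : ℝ := ∑' i, |v i| * (p m i * L i m ^ 2)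
noncomputable def dd (m : ℕ) (v : T → ℝ) : ℝ := UU p L m v - TT p L m v ^ 2 / SS p m v
noncomputable def l1 (v : T → ℝ) : ℝ := ∑' i, |v i|
noncomputable def NN (v : T → ℝ) : ℝ := 3 * l1 v - ∑' m : ℕ, (1 / 2 : ℝ) ^ (m + 1) * dd p L m v

/-- unit vectors -/
noncomputable def un [DecidableEq T] (i : T) : T → ℝ := Pi.single i 1

section
variable {p L} (hp0 : ∀ m i, 0 < p m i) (hp1 : ∀ m i, p m i ≤ 1) (hL : ∀ i m, |L i m| ≤ 1)
include hp0 hp1

theorem summable_S {v : T → ℝ} (hv : Summable (fun i => |v i|)) (m : ℕ) :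
    Summable (fun i => |v i| * p m i) :=
  Summable.of_nonneg_of_le (fun i => mul_nonneg (abs_nonneg _) (hp0 m i).le)
    (fun i => by have := mul_le_mul_of_nonneg_left (hp1 m i) (abs_nonneg (v i)); simpa using this) hv

theorem SS_nonneg (v : T → ℝ) (m : ℕ) : 0 ≤ SS p m v :=
  tsum_nonneg (fun i => mul_nonneg (abs_nonneg _) (hp0 m i).le)

theorem SS_pos {v : T → ℝ} (hv : Summable (fun i => |v i|)) (m : ℕ) {i : T} (hi : v i ≠ 0) :
    0 < SS p m v :=
  (summable_S hp0 hp1 hv m).tsum_pos (fun i => mul_nonneg (abs_nonneg _) (hp0 m i).le) i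
    (mul_pos (abs_pos.2 hi) (hp0 m i))

include hL

theorem sq_le_one_L (i : T) (m : ℕ) : L i m ^ 2 ≤ 1 := by
  have := hL i m
  rw [← sq_abs]; nlinarith [abs_nonneg (L i m)]

theorem summable_T {v : T → ℝ} (hv : Summable (fun i => |v i|)) (m : ℕ) :
    Summable (fun i => v i * (p m i * L i m)) := by
  apply Summable.of_abs
  refine Summable.of_nonneg_of_le (fun i => abs_nonneg _) (fun i => ?_) (summable_S hp0 hp1 hv m)
  rw [abs_mul, abs_mul, abs_of_pos (hp0 m i)]
  have h1 := mul_le_mul_of_nonneg_left (hL i m) (hp0 m i).le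
  exact mul_le_mul_of_nonneg_left (by linarith) (abs_nonneg _)

theorem summable_U {v : T → ℝ} (hv : Summable (fun i => |v i|)) (m : ℕ) :
    Summable (fun i => |v i| * (p m i * L i m ^ 2)) := by
  refine Summable.of_nonneg_of_le (fun i => mul_nonneg (abs_nonneg _)
    (mul_nonneg (hp0 m i).le (sq_nonneg _))) (fun i => ?_) (summable_S hp0 hp1 hv m)
  have h1 := mul_le_mul_of_nonneg_left (sq_le_one_L hp0 hp1 hL i m) (hp0 m i).le
  exact mul_le_mul_of_nonneg_left (by linarith) (abs_nonneg _)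

theorem abs_TT_le {v : T → ℝ} (hv : Summable (fun i => |v i|)) (m : ℕ) :
    |TT p L m v| ≤ SS p m v := by
  have h1 := summable_T hp0 hp1 hL hv m
  have h2 : Summable (fun i => |v i * (p m i * L i m)|) := h1.abs
  have h3 : ‖∑' i, v i * (p m i * L i m)‖ ≤ ∑' i, ‖v i * (p m i * L i m)‖ :=
    norm_tsum_le_tsum_norm h2
  refine h3.trans (Summable.tsum_le_tsum (fun i => ?_) h2 (summable_S hp0 hp1 hv m))
  rw [Real.norm_eq_abs, abs_mul, abs_mul, abs_of_pos (hp0 m i)]
  have h4 := mul_le_mul_of_nonneg_left (hL i m) (hp0 m i).le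
  exact mul_le_mul_of_nonneg_left (by linarith) (abs_nonneg _)

/-- The quadratic polynomial is nonnegative. -/
theorem quad_nonneg {v : T → ℝ} (hv : Summable (fun i => |v i|)) (m : ℕ) (f : ℝ) :
    0 ≤ f ^ 2 * SS p m v + 2 * f * TT p L m v + UU p L m v := by
  have h1 := (summable_S hp0 hp1 hv m).mul_left (f ^ 2)
  have h2 := (summable_T hp0 hp1 hL hv m).mul_left (2 * f)
  have h3 := summable_U hp0 hp1 hL hv m
  unfold SS TT UU
  rw [← tsum_mul_left, ← tsum_mul_left, ← h1.tsum_add h2, ← (h1.add h2).tsum_add h3]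
  apply tsum_nonneg
  intro i
  have hp := hp0 m i
  have h4 : f ^ 2 * (|v i| * p m i) + 2 * f * (v i * (p m i * L i m)) + |v i| * (p m i * L i m ^ 2)
      = p m i * (|v i| * (f ^ 2 + L i m ^ 2) + 2 * (v i * (f * L i m))) := by ring
  rw [h4]
  refine mul_nonneg hp.le ?_
  have h5 : |v i * (f * L i m)| = |v i| * (|f| * |L i m|) := by rw [abs_mul, abs_mul]
  have h6 := neg_abs_le (v i * (f * L i m))
  have h7 : f ^ 2 + L i m ^ 2 ≥ 2 * (|f| * |L i m|) := by
    rw [← sq_abs f, ← sq_abs (L i m)]; nlinarith [sq_nonneg (|f| - |L i m|)]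
  have h8 := mul_le_mul_of_nonneg_left h7 (abs_nonneg (v i))
  rw [h5] at h6
  linarith

/-- The minimizer of the quadratic polynomial. -/
theorem dd_eq {v : T → ℝ} (hv : Summable (fun i => |v i|)) (m : ℕ) (f : ℝ)
    (hf : f = -TT p L m v / SS p m v) :
    dd p L m v = f ^ 2 * SS p m v + 2 * f * TT p L m v + UU p L m v := by
  unfold dd
  by_cases h : SS p m v = 0
  · have h1 : TT p L m v = 0 := by
      have := abs_TT_le hp0 hp1 hL hv m
      rw [h] at this
      exact abs_eq_zero.1 (le_antisymm this (abs_nonneg _))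
    rw [hf, h, h1]; simp
  · rw [hf]; field_simp; ring

theorem abs_min_le {v : T → ℝ} (hv : Summable (fun i => |v i|)) (m : ℕ) :
    |-TT p L m v / SS p m v| ≤ 1 := by
  rw [abs_div, abs_neg, abs_of_nonneg (SS_nonneg hp0 hp1 v m)]
  exact div_le_one_of_le₀ (abs_TT_le hp0 hp1 hL hv m) (SS_nonneg hp0 hp1 v m)

theorem dd_le {v : T → ℝ} (hv : Summable (fun i => |v i|)) (m : ℕ) (f : ℝ) :
    dd p L m v ≤ f ^ 2 * SS p m v + 2 * f * TT p L m v + UU p L m v := by
  unfold dd
  by_cases h : SS p m v = 0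
  · have h1 : TT p L m v = 0 := by
      have := abs_TT_le hp0 hp1 hL hv m
      rw [h] at this
      exact abs_eq_zero.1 (le_antisymm this (abs_nonneg _))
    rw [h, h1]; simp
  · have hpos : 0 < SS p m v := lt_of_le_of_ne (SS_nonneg hp0 hp1 v m) (Ne.symm h)
    have h2 : f ^ 2 * SS p m v + 2 * f * TT p L m v + UU p L m v -
        (UU p L m v - TT p L m v ^ 2 / SS p m v) =
        (f * SS p m v + TT p L m v) ^ 2 / SS p m v := by
      field_simp; ring
    have h3 : 0 ≤ (f * SS p m v + TT p L m v) ^ 2 / SS p m v := by positivity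
    linarith

theorem dd_nonneg {v : T → ℝ} (hv : Summable (fun i => |v i|)) (m : ℕ) : 0 ≤ dd p L m v := by
  rw [dd_eq hp0 hp1 hL hv m _ rfl]
  exact quad_nonneg hp0 hp1 hL hv m _

theorem dd_le_l1 {v : T → ℝ} (hv : Summable (fun i => |v i|)) (m : ℕ) : dd p L m v ≤ l1 v := by
  have h1 := dd_le hp0 hp1 hL hv m 0
  have h2 : UU p L m v ≤ l1 v := by
    refine Summable.tsum_le_tsum (fun i => ?_) (summable_U hp0 hp1 hL hv m) hv
    have h3 : p m i * L i m ^ 2 ≤ 1 := by
      have := sq_le_one_L hp0 hp1 hL i m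
      have h4 := hp0 m i
      have h5 := hp1 m i
      nlinarith
    have := mul_le_mul_of_nonneg_left h3 (abs_nonneg (v i))
    simpa using this
  simp only [ne_eq, OfNat.ofNat_ne_zero, not_false_eq_true, zero_pow, zero_mul, mul_zero, zero_add] at h1
  exact h1.trans h2

omit hp0 hp1 hL in
theorem hasSum_half : HasSum (fun m : ℕ => (1 / 2 : ℝ) ^ (m + 1)) 1 := by
  have h2 := hasSum_geometric_two.mul_left (1 / 2 : ℝ)
  have h3 : (fun m : ℕ => (1 / 2 : ℝ) ^ (m + 1)) = fun m : ℕ => (1 / 2 : ℝ) * (1 / 2) ^ m := by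
    funext m; rw [pow_succ]; ring
  rw [h3]
  have h4 : (1 / 2 : ℝ) * 2 = 1 := by norm_num
  rwa [h4] at h2

theorem summable_dd {v : T → ℝ} (hv : Summable (fun i => |v i|)) :
    Summable (fun m : ℕ => (1 / 2 : ℝ) ^ (m + 1) * dd p L m v) := by
  refine Summable.of_nonneg_of_le (fun m => mul_nonneg (by positivity) (dd_nonneg hp0 hp1 hL hv m))
    (fun m => ?_) (hasSum_half.summable.mul_right (l1 v))
  exact mul_le_mul_of_nonneg_left (dd_le_l1 hp0 hp1 hL hv m) (by positivity)

theorem NN_ge {v : T → ℝ} (hv : Summable (fun i => |v i|)) : 2 * l1 v ≤ NN p L v := by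
  have h1 : (∑' m : ℕ, (1 / 2 : ℝ) ^ (m + 1) * dd p L m v) ≤ l1 v := by
    have h2 := Summable.tsum_le_tsum (fun m => mul_le_mul_of_nonneg_left
      (dd_le_l1 hp0 hp1 hL hv m) (by positivity : (0:ℝ) ≤ (1 / 2 : ℝ) ^ (m + 1)))
      (summable_dd hp0 hp1 hL hv) (hasSum_half.summable.mul_right (l1 v))
    rw [tsum_mul_right, hasSum_half.tsum_eq, one_mul] at h2
    exact h2
  unfold NN; linarith

theorem NN_le {v : T → ℝ} (hv : Summable (fun i => |v i|)) : NN p L v ≤ 3 * l1 v := by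
  have h1 : 0 ≤ (∑' m : ℕ, (1 / 2 : ℝ) ^ (m + 1) * dd p L m v) :=
    tsum_nonneg (fun m => mul_nonneg (by positivity) (dd_nonneg hp0 hp1 hL hv m))
  unfold NN; linarith

theorem NN_smul (a : ℝ) (v : T → ℝ) : NN p L (a • v) = |a| * NN p L v := by
  have hS : ∀ m, SS p m (a • v) = |a| * SS p m v := by
    intro m; unfold SS; rw [← tsum_mul_left]; congr 1; funext i
    simp only [Pi.smul_apply, smul_eq_mul, abs_mul]; ring
  have hT : ∀ m, TT p L m (a • v) = a * TT p L m v := by
    intro m; unfold TT; rw [← tsum_mul_left]; congr 1; funext i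
    simp only [Pi.smul_apply, smul_eq_mul]; ring
  have hU : ∀ m, UU p L m (a • v) = |a| * UU p L m v := by
    intro m; unfold UU; rw [← tsum_mul_left]; congr 1; funext i
    simp only [Pi.smul_apply, smul_eq_mul, abs_mul]; ring
  have hl : l1 (a • v) = |a| * l1 v := by
    unfold l1; rw [← tsum_mul_left]; congr 1; funext i
    simp only [Pi.smul_apply, smul_eq_mul, abs_mul]
  have hd : ∀ m, dd p L m (a • v) = |a| * dd p L m v := by
    intro m
    unfold dd
    rw [hS, hT, hU]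
    by_cases ha : a = 0
    · subst ha; simp
    · have h1 : |a| ≠ 0 := abs_ne_zero.2 ha
      have h2 : (a * TT p L m v) ^ 2 = |a| * (|a| * TT p L m v ^ 2) := by
        rw [mul_pow, ← sq_abs a]; ring
      rw [h2, mul_div_mul_left _ _ h1]; ring
  unfold NN
  simp only [hd, hl]
  have : ∀ m : ℕ, (1 / 2 : ℝ) ^ (m + 1) * (|a| * dd p L m v) =
      |a| * ((1 / 2 : ℝ) ^ (m + 1) * dd p L m v) := by intro m; ring
  simp only [this, tsum_mul_left]; ring

omit hp0 hp1 hL in
theorem summable_add {v w : T → ℝ} (hv : Summable (fun i => |v i|)) (hw : Summable (fun i => |w i|)) :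
    Summable (fun i => |(v + w) i|) :=
  Summable.of_nonneg_of_le (fun i => abs_nonneg _) (fun i => abs_add_le _ _) (hv.add hw)

theorem dd_add {v w : T → ℝ} (hv : Summable (fun i => |v i|)) (hw : Summable (fun i => |w i|))
    (m : ℕ) : dd p L m v + dd p L m w ≤
      dd p L m (v + w) + 2 * (l1 v + l1 w - l1 (v + w)) := by
  have hvw := summable_add hv hw
  obtain ⟨f, hf⟩ : ∃ f, f = -TT p L m (v + w) / SS p m (v + w) := ⟨_, rfl⟩
  have hf1 : |f| ≤ 1 := by rw [hf]; exact abs_min_le hp0 hp1 hL hvw m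
  have hf2 : f ^ 2 ≤ 1 := by rw [← sq_abs]; nlinarith [abs_nonneg f]
  have h1 := dd_le hp0 hp1 hL hv m f
  have h2 := dd_le hp0 hp1 hL hw m f
  have h3 := dd_eq hp0 hp1 hL hvw m f hf
  have hT : TT p L m (v + w) = TT p L m v + TT p L m w := by
    unfold TT
    rw [← (summable_T hp0 hp1 hL hv m).tsum_add (summable_T hp0 hp1 hL hw m)]
    congr 1; funext i; simp only [Pi.add_apply]; ring
  have key : ∀ h : T → ℝ, (∀ i, 0 ≤ h i) → (∀ i, h i ≤ 1) →
      Summable (fun i => |v i| * h i) → Summable (fun i => |w i| * h i) →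
      Summable (fun i => |(v + w) i| * h i) →
      (∑' i, |v i| * h i) + (∑' i, |w i| * h i) - (∑' i, |(v + w) i| * h i) ≤
        l1 v + l1 w - l1 (v + w) ∧
      0 ≤ (∑' i, |v i| * h i) + (∑' i, |w i| * h i) - (∑' i, |(v + w) i| * h i) := by
    intro h h0 h1 s1 s2 s3
    unfold l1
    rw [← s1.tsum_add s2, ← (s1.add s2).tsum_sub s3, ← hv.tsum_add hw,
      ← (hv.add hw).tsum_sub hvw]
    have hpt : ∀ i, 0 ≤ |v i| + |w i| - |(v + w) i| := by
      intro i; have := abs_add_le (v i) (w i); simp only [Pi.add_apply]; linarith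
    constructor
    · refine Summable.tsum_le_tsum (fun i => ?_) ((s1.add s2).sub s3) ((hv.add hw).sub hvw)
      have := mul_le_mul_of_nonneg_left (h1 i) (hpt i)
      nlinarith
    · apply tsum_nonneg
      intro i
      have := mul_nonneg (hpt i) (h0 i)
      nlinarith
  obtain ⟨k1, k2⟩ := key (fun i => p m i) (fun i => (hp0 m i).le) (hp1 m)
    (summable_S hp0 hp1 hv m) (summable_S hp0 hp1 hw m) (summable_S hp0 hp1 hvw m)
  obtain ⟨k3, k4⟩ := key (fun i => p m i * L i m ^ 2)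
    (fun i => mul_nonneg (hp0 m i).le (sq_nonneg _))
    (fun i => by
      have := sq_le_one_L hp0 hp1 hL i m
      have h4 := hp0 m i
      have h5 := hp1 m i
      nlinarith)
    (summable_U hp0 hp1 hL hv m) (summable_U hp0 hp1 hL hw m) (summable_U hp0 hp1 hL hvw m)
  change SS p m v + SS p m w - SS p m (v + w) ≤ _ at k1
  change 0 ≤ SS p m v + SS p m w - SS p m (v + w) at k2
  change UU p L m v + UU p L m w - UU p L m (v + w) ≤ _ at k3
  rw [h3, hT]
  have h6 : f ^ 2 * (SS p m v + SS p m w - SS p m (v + w)) ≤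
      SS p m v + SS p m w - SS p m (v + w) := by nlinarith
  nlinarith

theorem NN_add {v w : T → ℝ} (hv : Summable (fun i => |v i|)) (hw : Summable (fun i => |w i|)) :
    NN p L (v + w) ≤ NN p L v + NN p L w := by
  have hvw := summable_add hv hw
  have hΔ : 0 ≤ l1 v + l1 w - l1 (v + w) := by
    unfold l1
    rw [← hv.tsum_add hw, ← (hv.add hw).tsum_sub hvw]
    apply tsum_nonneg
    intro i; have := abs_add_le (v i) (w i); simp only [Pi.add_apply]; linarith
  have h1 : (∑' m : ℕ, (1 / 2 : ℝ) ^ (m + 1) * dd p L m v) +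
      (∑' m : ℕ, (1 / 2 : ℝ) ^ (m + 1) * dd p L m w) ≤
      (∑' m : ℕ, (1 / 2 : ℝ) ^ (m + 1) * dd p L m (v + w)) + 2 * (l1 v + l1 w - l1 (v + w)) := by
    have s1 := summable_dd hp0 hp1 hL hv
    have s2 := summable_dd hp0 hp1 hL hw
    have s3 := summable_dd hp0 hp1 hL hvw
    have s4 : Summable (fun m : ℕ => (1 / 2 : ℝ) ^ (m + 1) * (2 * (l1 v + l1 w - l1 (v + w)))) :=
      hasSum_half.summable.mul_right _
    have h2 : ∑' m : ℕ, (1 / 2 : ℝ) ^ (m + 1) * (2 * (l1 v + l1 w - l1 (v + w))) =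
        2 * (l1 v + l1 w - l1 (v + w)) := by
      rw [tsum_mul_right, hasSum_half.tsum_eq, one_mul]
    rw [← h2, ← s1.tsum_add s2, ← s3.tsum_add s4]
    refine Summable.tsum_le_tsum (fun m => ?_) (s1.add s2) (s3.add s4)
    have := mul_le_mul_of_nonneg_left (dd_add hp0 hp1 hL hv hw m)
      (by positivity : (0:ℝ) ≤ (1 / 2 : ℝ) ^ (m + 1))
    linarith
  unfold NN
  linarith

/-! ### Distances to the unit vectors -/

omit hp0 hp1 hL in
theorem summable_sub_single [DecidableEq T] {w : T → ℝ} (hw : Summable (fun i => |w i|)) (i : T) :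
    Summable (fun k => |(w - un i) k|) := by
  have h1 : Summable (fun k => |(un i : T → ℝ) k|) := by
    apply summable_of_ne_finset_zero (s := {i})
    intro b hb
    have : b ≠ i := by simpa using hb
    simp [un, this]
  refine Summable.of_nonneg_of_le (fun _ => abs_nonneg _) (fun k => ?_) (hw.add h1)
  simp only [Pi.sub_apply]
  exact abs_sub _ _

omit hp0 hp1 hL in
theorem tsum_abs_sub_single [DecidableEq T] (w : T → ℝ) (i : T) (h : T → ℝ)
    (hs : Summable (fun k => |w k| * h k)) :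
    ∑' k, |(w - un i) k| * h k =
      (∑' k, |w k| * h k) - (|w i| - |w i - 1|) * h i := by
  have h1 : (fun k => |(w - un i) k| * h k) =
      fun k => |w k| * h k - (Pi.single i ((|w i| - |w i - 1|) * h i) : T → ℝ) k := by
    funext k
    by_cases hk : k = i
    · subst hk; simp [un]; ring
    · simp [un, hk]
  have h2 : Summable (Pi.single i ((|w i| - |w i - 1|) * h i) : T → ℝ) := by
    apply summable_of_ne_finset_zero (s := {i})
    intro b hb
    have : b ≠ i := by simpa using hb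
    simp [this]
  rw [h1, hs.tsum_sub h2, tsum_pi_single]

omit hp0 hp1 hL in
theorem l1_sub_single [DecidableEq T] {w : T → ℝ} (hw : Summable (fun i => |w i|)) (i : T) :
    l1 (w - un i) = l1 w - (|w i| - |w i - 1|) := by
  have := tsum_abs_sub_single w i (fun _ => 1) (by simpa using hw)
  simpa [l1] using this

theorem SS_sub_single [DecidableEq T] {w : T → ℝ} (hw : Summable (fun i => |w i|)) (i : T) (m : ℕ) :
    SS p m (w - un i) = SS p m w - (|w i| - |w i - 1|) * p m i :=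
  tsum_abs_sub_single w i (fun k => p m k) (summable_S hp0 hp1 hw m)

theorem UU_sub_single [DecidableEq T] {w : T → ℝ} (hw : Summable (fun i => |w i|)) (i : T) (m : ℕ) :
    UU p L m (w - un i) =
      UU p L m w - (|w i| - |w i - 1|) * (p m i * L i m ^ 2) :=
  tsum_abs_sub_single w i (fun k => p m k * L k m ^ 2) (summable_U hp0 hp1 hL hw m)

theorem TT_sub_single [DecidableEq T] {w : T → ℝ} (hw : Summable (fun i => |w i|)) (i : T) (m : ℕ) :
    TT p L m (w - un i) = TT p L m w - p m i * L i m := by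
  have h1 : (fun k => (w - un i) k * (p m k * L k m)) =
      fun k => w k * (p m k * L k m) - (Pi.single i (p m i * L i m) : T → ℝ) k := by
    funext k
    by_cases hk : k = i
    · subst hk; simp [un]; ring
    · simp [un, hk]
  have h2 : Summable (Pi.single i (p m i * L i m) : T → ℝ) := by
    apply summable_of_ne_finset_zero (s := {i})
    intro b hb
    have : b ≠ i := by simpa using hb
    simp [this]
  unfold TT
  rw [h1, (summable_T hp0 hp1 hL hw m).tsum_sub h2, tsum_pi_single]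

/-- The farthest distance. -/
noncomputable def rr (p : ℕ → T → ℝ) (L : T → ℕ → ℝ) (w : T → ℝ) : ℝ :=
  3 * (l1 w + 1) - ∑' m : ℕ, (1 / 2 : ℝ) ^ (m + 1) * dd p L m w

/-- The key upper estimate. -/
theorem NN_sub_single_le [DecidableEq T] {w : T → ℝ} (hw : Summable (fun i => |w i|)) (i : T)
    (f : ℕ → ℝ) (hf : ∀ m, f m = -TT p L m (w - un i) / SS p m (w - un i)) :
    Summable (fun m : ℕ => (1 / 2 : ℝ) ^ (m + 1) * (p m i * (f m - L i m) ^ 2)) ∧
    NN p L (w - un i) ≤ rr p L w - (1 + (|w i| - |w i - 1|)) -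
      ∑' m : ℕ, (1 / 2 : ℝ) ^ (m + 1) * (p m i * (f m - L i m) ^ 2) := by
  have hv := summable_sub_single hw i
  set v := w - un i with hvdef
  set σ := |w i| - |w i - 1| with hσ
  have hf1 : ∀ m, |f m| ≤ 1 := fun m => by rw [hf]; exact abs_min_le hp0 hp1 hL hv m
  have hf2 : ∀ m, f m ^ 2 ≤ 1 := fun m => by rw [← sq_abs]; nlinarith [abs_nonneg (f m), hf1 m]
  have hL2 := sq_le_one_L hp0 hp1 hL i
  have hσ1 : -1 ≤ σ := by
    have : |w i - 1| ≤ |w i| + |1| := abs_sub _ _
    rw [abs_one] at this; linarith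
  have hσ2 : σ ≤ 1 := by
    have : |w i| ≤ |w i - 1| + 1 := by
      have h := abs_add_le (w i - 1) 1
      rw [abs_one, sub_add_cancel] at h; exact h
    linarith
  have hs : Summable (fun m : ℕ => (1 / 2 : ℝ) ^ (m + 1) * (p m i * (f m - L i m) ^ 2)) := by
    refine Summable.of_nonneg_of_le (fun m => mul_nonneg (by positivity)
      (mul_nonneg (hp0 m i).le (sq_nonneg _))) (fun m => ?_) (hasSum_half.summable.mul_right 4)
    refine mul_le_mul_of_nonneg_left ?_ (by positivity)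
    have h1 : (f m - L i m) ^ 2 ≤ 4 := by
      have := hf2 m; have := hL2 m
      nlinarith [sq_nonneg (f m + L i m)]
    have := hp0 m i; have := hp1 m i
    nlinarith [sq_nonneg (f m - L i m)]
  refine ⟨hs, ?_⟩
  have key : ∀ m, dd p L m w ≤ dd p L m v + (2 * (1 + σ) - p m i * (f m - L i m) ^ 2) := by
    intro m
    have h1 := dd_le hp0 hp1 hL hw m (f m)
    have h2 := dd_eq hp0 hp1 hL hv m (f m) (hf m)
    rw [hvdef, SS_sub_single hp0 hp1 hL hw i m, UU_sub_single hp0 hp1 hL hw i m,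
      TT_sub_single hp0 hp1 hL hw i m, ← hvdef, ← hσ] at h2
    have h3 : f m ^ 2 * SS p m w + 2 * f m * TT p L m w + UU p L m w =
        dd p L m v + p m i * (σ * (f m ^ 2 + L i m ^ 2) + 2 * f m * L i m) := by rw [h2]; ring
    have h4 : p m i * (σ * (f m ^ 2 + L i m ^ 2) + 2 * f m * L i m) =
        p m i * ((1 + σ) * (f m ^ 2 + L i m ^ 2)) - p m i * (f m - L i m) ^ 2 := by ring
    have h5 : p m i * ((1 + σ) * (f m ^ 2 + L i m ^ 2)) ≤ 2 * (1 + σ) := by
      have h6 : (1 + σ) * (f m ^ 2 + L i m ^ 2) ≤ (1 + σ) * 2 :=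
        mul_le_mul_of_nonneg_left (by linarith [hf2 m, hL2 m]) (by linarith)
      have h7 : 0 ≤ (1 + σ) * (f m ^ 2 + L i m ^ 2) := mul_nonneg (by linarith) (by positivity)
      have := hp0 m i; have := hp1 m i
      nlinarith
    linarith
  have s1 := summable_dd hp0 hp1 hL hw
  have s2 := summable_dd hp0 hp1 hL hv
  have s3 : Summable (fun m : ℕ => (1 / 2 : ℝ) ^ (m + 1) * (2 * (1 + σ))) :=
    hasSum_half.summable.mul_right _
  have h2 : ∑' m : ℕ, (1 / 2 : ℝ) ^ (m + 1) * (2 * (1 + σ)) = 2 * (1 + σ) := by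
    rw [tsum_mul_right, hasSum_half.tsum_eq, one_mul]
  have hsum : (∑' m : ℕ, (1 / 2 : ℝ) ^ (m + 1) * dd p L m w) ≤
      (∑' m : ℕ, (1 / 2 : ℝ) ^ (m + 1) * dd p L m v) + (2 * (1 + σ) -
      ∑' m : ℕ, (1 / 2 : ℝ) ^ (m + 1) * (p m i * (f m - L i m) ^ 2)) := by
    rw [← h2, ← s3.tsum_sub hs, ← s2.tsum_add (s3.sub hs)]
    refine Summable.tsum_le_tsum (fun m => ?_) s1 (s2.add (s3.sub hs))
    have := mul_le_mul_of_nonneg_left (key m) (by positivity : (0:ℝ) ≤ (1 / 2 : ℝ) ^ (m + 1))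
    linarith
  have hl := l1_sub_single hw i
  unfold NN rr
  rw [← hvdef, ← hσ] at hl
  rw [hl]
  linarith

theorem NN_sub_single_le_rr [DecidableEq T] {w : T → ℝ} (hw : Summable (fun i => |w i|)) (i : T) :
    NN p L (w - un i) ≤ rr p L w := by
  obtain ⟨hs, h⟩ := NN_sub_single_le hp0 hp1 hL hw i _ (fun m => rfl)
  have h1 : 0 ≤ ∑' m : ℕ, (1 / 2 : ℝ) ^ (m + 1) * (p m i *
      (-TT p L m (w - un i) / SS p m (w - un i) - L i m) ^ 2) :=
    tsum_nonneg (fun m => mul_nonneg (by positivity) (mul_nonneg (hp0 m i).le (sq_nonneg _)))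
  have hσ1 : -1 ≤ |w i| - |w i - 1| := by
    have : |w i - 1| ≤ |w i| + |1| := abs_sub _ _
    rw [abs_one] at this; linarith
  linarith

/-- Equality forces the label of `i` to be the minimizer, and `w i ≤ 0`. -/
theorem eq_of_NN_eq [DecidableEq T] {w : T → ℝ} (hw : Summable (fun i => |w i|)) (i : T)
    (h : rr p L w ≤ NN p L (w - un i)) :
    w i ≤ 0 ∧ ∀ m, L i m * SS p m w = -TT p L m w := by
  obtain ⟨f, hf⟩ : ∃ f : ℕ → ℝ, ∀ m, f m =
      -TT p L m (w - un i) / SS p m (w - un i) := ⟨_, fun m => rfl⟩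
  obtain ⟨hs, h0⟩ := NN_sub_single_le hp0 hp1 hL hw i f hf
  have hnn : ∀ m, 0 ≤ (1 / 2 : ℝ) ^ (m + 1) * (p m i * (f m - L i m) ^ 2) := fun m =>
    mul_nonneg (by positivity) (mul_nonneg (hp0 m i).le (sq_nonneg _))
  have h1 : 0 ≤ ∑' m : ℕ, (1 / 2 : ℝ) ^ (m + 1) * (p m i * (f m - L i m) ^ 2) := tsum_nonneg hnn
  have hσ1 : -1 ≤ |w i| - |w i - 1| := by
    have : |w i - 1| ≤ |w i| + |1| := abs_sub _ _
    rw [abs_one] at this; linarith
  have hσ : |w i| - |w i - 1| = -1 := by linarith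
  have hsum0 : ∑' m : ℕ, (1 / 2 : ℝ) ^ (m + 1) * (p m i * (f m - L i m) ^ 2) = 0 := by linarith
  have hwi : w i ≤ 0 := by
    by_contra hcon
    push Not at hcon
    rw [abs_of_pos hcon] at hσ
    rcases le_total 1 (w i) with h5 | h5
    · rw [abs_of_nonneg (by linarith)] at hσ; linarith
    · rw [abs_of_nonpos (by linarith)] at hσ; linarith
  refine ⟨hwi, fun m => ?_⟩
  have h2 : (1 / 2 : ℝ) ^ (m + 1) * (p m i * (f m - L i m) ^ 2) = 0 := by
    have h3 := (hs.hasSum_iff.2 hsum0)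
    exact congrFun ((hasSum_zero_iff_of_nonneg hnn).1 h3) m
  have h4 : f m = L i m := by
    have h5 : (1 / 2 : ℝ) ^ (m + 1) ≠ 0 := by positivity
    have h6 := (hp0 m i).ne'
    have h7 : (f m - L i m) ^ 2 = 0 := by
      rcases mul_eq_zero.1 h2 with h8 | h8
      · exact absurd h8 h5
      · rcases mul_eq_zero.1 h8 with h9 | h9
        · exact absurd h9 h6
        · exact h9
    have := pow_eq_zero_iff (two_ne_zero) |>.1 h7
    linarith
  have hv := summable_sub_single hw i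
  have hvi : (w - un i) i ≠ 0 := by simp [un]; linarith
  have hpos := SS_pos hp0 hp1 hv m hvi
  have h5 := hf m
  rw [h4, eq_div_iff hpos.ne', SS_sub_single hp0 hp1 hL hw i m, TT_sub_single hp0 hp1 hL hw i m, hσ] at h5
  linarith

/-- The distance is attained when the label is the minimizer. -/
theorem NN_eq_of_eq [DecidableEq T] {w : T → ℝ} (hw : Summable (fun i => |w i|)) (i : T)
    (hwi : w i ≤ 0) (hw0 : ∃ k, w k ≠ 0) (h : ∀ m, L i m * SS p m w = -TT p L m w) :
    rr p L w ≤ NN p L (w - un i) := by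
  have hv := summable_sub_single hw i
  obtain ⟨k, hk⟩ := hw0
  have hσ : |w i| - |w i - 1| = -1 := by
    rw [abs_of_nonpos hwi, abs_of_nonpos (by linarith)]; ring
  have key : ∀ m, dd p L m (w - un i) ≤ dd p L m w := by
    intro m
    have hpos := SS_pos hp0 hp1 hw m hk
    have hf : L i m = -TT p L m w / SS p m w := by rw [eq_div_iff hpos.ne']; exact h m
    have h1 := dd_le hp0 hp1 hL hv m (L i m)
    have h2 := dd_eq hp0 hp1 hL hw m (L i m) hf
    rw [SS_sub_single hp0 hp1 hL hw i m, UU_sub_single hp0 hp1 hL hw i m,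
      TT_sub_single hp0 hp1 hL hw i m, hσ] at h1
    rw [h2]
    refine h1.trans (le_of_eq ?_)
    ring
  have hsum : (∑' m : ℕ, (1 / 2 : ℝ) ^ (m + 1) * dd p L m (w - un i)) ≤
      (∑' m : ℕ, (1 / 2 : ℝ) ^ (m + 1) * dd p L m w) := by
    refine Summable.tsum_le_tsum (fun m => ?_) (summable_dd hp0 hp1 hL hv) (summable_dd hp0 hp1 hL hw)
    exact mul_le_mul_of_nonneg_left (key m) (by positivity)
  have hl := l1_sub_single hw i
  rw [hσ] at hl
  unfold NN rr
  rw [hl]
  linarith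

end

end Pool.Agent.Helper630.Remotal
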