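import Mathlib

/-!
Countably branching labelled trees and the recursively defined labels used in the construction of a
uniquely remotal set.
-/

set_option autoImplicit false

open Filter Topology

namespace Pool.Agent.Helper630.Remotal

/-- Codes: a base code, and for every sequence of codes and every real sequence a new code. -/
inductive Tr : Type
  | base : Tr
  | node : (ℕ → Tr) → (ℕ → ℝ) → Tr

/-- The label of a code, for given strengths `a`. -/
noncomputable def Lh (a : Tr → ℝ) : Tr → ℝ
  | Tr.base => 1
  | Tr.node f c => -(∑' n, c n * (a (f n) * Lh a (f n))) / (∑' n, |c n| * a (f n))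

/-- Strict subtree relation. -/
def Below (s : Tr) : Tr → Prop
  | Tr.base => False
  | Tr.node f _ => ∃ n, s = f n ∨ Below s (f n)

/-- Good codes: summable nonzero coefficients, different codes at different nonzero coefficients. -/
def Good : Tr → Prop
  | Tr.base => True
  | Tr.node f c => (∀ n, Good (f n)) ∧ Summable (fun n => |c n|) ∧ (∃ n, c n ≠ 0) ∧
      (∀ m n, c m ≠ 0 → c n ≠ 0 → f m = f n → m = n)

theorem abs_Lh_le (a : Tr → ℝ) (ha : ∀ t, 0 ≤ a t) (t : Tr) : |Lh a t| ≤ 1 := by
  induction t with
  | base => simp [Lh]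
  | node f c ih =>
    simp only [Lh]
    by_cases hs : Summable (fun n => |c n| * a (f n))
    · rw [abs_div, abs_neg]
      have h2 : ∀ n, |c n * (a (f n) * Lh a (f n))| ≤ |c n| * a (f n) := by
        intro n
        rw [abs_mul, abs_mul, abs_of_nonneg (ha (f n))]
        refine mul_le_mul_of_nonneg_left ?_ (abs_nonneg _)
        have := mul_le_mul_of_nonneg_left (ih n) (ha (f n))
        simpa using this
      have h3 : Summable (fun n => |c n * (a (f n) * Lh a (f n))|) :=
        Summable.of_nonneg_of_le (fun _ => abs_nonneg _) h2 hs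
      have h1 : |∑' n, c n * (a (f n) * Lh a (f n))| ≤ ∑' n, |c n| * a (f n) := by
        have h5 : ‖∑' n, c n * (a (f n) * Lh a (f n))‖ ≤
            ∑' n, ‖c n * (a (f n) * Lh a (f n))‖ := norm_tsum_le_tsum_norm h3
        refine h5.trans ?_
        exact Summable.tsum_le_tsum h2 h3 hs
      have h4 : 0 ≤ ∑' n, |c n| * a (f n) :=
        tsum_nonneg (fun n => mul_nonneg (abs_nonneg _) (ha _))
      rw [abs_of_nonneg h4]
      exact div_le_one_of_le₀ h1 h4
    · rw [tsum_eq_zero_of_not_summable hs]; simp

theorem Lh_scale (a : Tr → ℝ) (k : ℝ) (hk : k ≠ 0) (t : Tr) :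
    Lh (fun s => k * a s) t = Lh a t := by
  induction t with
  | base => simp [Lh]
  | node f c ih =>
    simp only [Lh, ih]
    have h1 : ∀ n, c n * (k * a (f n) * Lh a (f n)) = k * (c n * (a (f n) * Lh a (f n))) := by
      intro n; ring
    have h2 : ∀ n, |c n| * (k * a (f n)) = k * (|c n| * a (f n)) := by
      intro n; ring
    simp only [h1, h2, tsum_mul_left]
    rw [← mul_neg, mul_div_mul_left _ _ hk]

theorem Lh_congr (a b : Tr → ℝ) (t : Tr) (h : ∀ s, Below s t → a s = b s) :
    Lh a t = Lh b t := by
  induction t with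
  | base => simp [Lh]
  | node f c ih =>
    have h1 : ∀ n, a (f n) = b (f n) := fun n => h _ ⟨n, Or.inl rfl⟩
    have h2 : ∀ n, Lh a (f n) = Lh b (f n) := fun n => ih n (fun s hs => h s ⟨n, Or.inr hs⟩)
    simp only [Lh, h1, h2]

theorem Below.trans {r s t : Tr} (h1 : Below r s) (h2 : Below s t) : Below r t := by
  induction t with
  | base => exact h2.elim
  | node f c ih =>
    obtain ⟨n, hn⟩ := h2
    rcases hn with hn | hn
    · subst hn; exact ⟨n, Or.inr h1⟩
    · exact ⟨n, Or.inr (ih n hn)⟩

theorem Below.irrefl (t : Tr) : ¬ Below t t := by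
  induction t with
  | base => exact fun h => h.elim
  | node f c ih =>
    intro h
    obtain ⟨n, hn⟩ := h
    have hchild : Below (f n) (Tr.node f c) := ⟨n, Or.inl rfl⟩
    rcases hn with hn | hn
    · apply ih n
      rw [← hn] at hchild ⊢
      exact hchild
    · exact ih n (Below.trans hchild hn)

theorem Lh_update [DecidableEq Tr] (a : Tr → ℝ) (t : Tr) (r : ℝ) :
    Lh (Function.update a t r) t = Lh a t := by
  apply Lh_congr
  intro s hs
  have : s ≠ t := by
    rintro rfl; exact Below.irrefl _ hs
  simp [Function.update_of_ne this]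

/-- Continuity of labels with respect to bounded pointwise convergence of strengths. -/
theorem Lh_tendsto (t : Tr) (hg : Good t) (a : ℕ → Tr → ℝ) (b : Tr → ℝ) (B : ℝ)
    (h0 : ∀ n t, 0 ≤ a n t) (hB : ∀ n t, a n t ≤ B) (hb : ∀ t, 0 < b t)
    (hlim : ∀ t, Tendsto (fun n => a n t) atTop (𝓝 (b t))) :
    Tendsto (fun n => Lh (a n) t) atTop (𝓝 (Lh b t)) := by
  induction t with
  | base => simp [Lh]
  | node f c ih =>
    obtain ⟨h1, h2, ⟨n0, hn0⟩, -⟩ := hg
    have hB0 : 0 ≤ B := (h0 0 Tr.base).trans (hB 0 Tr.base)
    have hbB : ∀ t, b t ≤ B := fun t => le_of_tendsto (hlim t) (Eventually.of_forall (fun n => hB n t))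
    have hsum : Summable (fun n => |c n| * B) := h2.mul_right B
    have hS : Tendsto (fun k => ∑' n, |c n| * a k (f n)) atTop (𝓝 (∑' n, |c n| * b (f n))) := by
      refine tendsto_tsum_of_dominated_convergence hsum ?_ ?_
      · intro n; exact (hlim (f n)).const_mul _
      · refine Eventually.of_forall (fun k n => ?_)
        rw [Real.norm_eq_abs, abs_mul, abs_abs, abs_of_nonneg (h0 k _)]
        exact mul_le_mul_of_nonneg_left (hB k _) (abs_nonneg _)
    have hT : Tendsto (fun k => ∑' n, c n * (a k (f n) * Lh (a k) (f n))) atTop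
        (𝓝 (∑' n, c n * (b (f n) * Lh b (f n)))) := by
      refine tendsto_tsum_of_dominated_convergence hsum ?_ ?_
      · intro n; exact ((hlim (f n)).mul (ih n (h1 n))).const_mul _
      · refine Eventually.of_forall (fun k n => ?_)
        rw [Real.norm_eq_abs, abs_mul, abs_mul, abs_of_nonneg (h0 k _)]
        refine mul_le_mul_of_nonneg_left ?_ (abs_nonneg _)
        have h5 := mul_le_mul_of_nonneg_left (abs_Lh_le (a k) (h0 k) (f n)) (h0 k (f n))
        have h6 := hB k (f n)
        linarith
    have hpos : 0 < ∑' n, |c n| * b (f n) := by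
      have hs : Summable (fun n => |c n| * b (f n)) :=
        Summable.of_nonneg_of_le (fun n => mul_nonneg (abs_nonneg _) (hb _).le)
          (fun n => mul_le_mul_of_nonneg_left (hbB _) (abs_nonneg _)) hsum
      exact hs.tsum_pos (fun n => mul_nonneg (abs_nonneg _) (hb _).le) n0
        (mul_pos (abs_pos.2 hn0) (hb _))
    simp only [Lh]
    exact hT.neg.div hS hpos.ne'

/-- A finitely supported pattern is bounded. -/
theorem pat_le (a : Tr →₀ ℕ) (t : Tr) : a t ≤ a.sum (fun _ x => x) := by
  classical
  by_cases h : t ∈ a.support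
  · exact Finset.single_le_sum (f := fun t => a t) (fun _ _ => Nat.zero_le _) h
  · rw [Finsupp.notMem_support_iff.1 h]; exact Nat.zero_le _

/-- The label of a good code is nonzero for some finite pattern of strengths. -/
theorem exists_pattern (t : Tr) (hg : Good t) :
    ∃ a : Tr →₀ ℕ, Lh (fun s => (a s : ℝ) + 1) t ≠ 0 := by
  classical
  induction t with
  | base => exact ⟨0, by simp [Lh]⟩
  | node f c ih =>
    obtain ⟨h1, h2, ⟨n0, hn0⟩, hinj⟩ := hg
    obtain ⟨a0, ha0⟩ := ih n0 (h1 n0)
    set ℓ := Lh (fun s => (a0 s : ℝ) + 1) (f n0) with hℓ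
    set B : ℝ := (a0.sum (fun _ x => x) : ℕ) + 1 with hB
    have hB0 : 0 < B := by positivity
    have haB : ∀ s, (a0 s : ℝ) + 1 ≤ B := by
      intro s
      have : (a0 s : ℝ) ≤ (a0.sum (fun _ x => x) : ℕ) := by exact_mod_cast pat_le a0 s
      rw [hB]; linarith
    -- choose R large
    obtain ⟨R, hR⟩ := exists_nat_gt ((∑' n, |c n| * B) / (|c n0| * |ℓ|))
    have hcl : 0 < |c n0| * |ℓ| := mul_pos (abs_pos.2 hn0) (abs_pos.2 ha0)
    rw [div_lt_iff₀ hcl] at hR
    refine ⟨a0.update (f n0) R, ?_⟩
    set a : Tr → ℝ := fun s => ((a0.update (f n0) R) s : ℝ) + 1 with ha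
    have hupd : a = Function.update (fun s => (a0 s : ℝ) + 1) (f n0) ((R : ℝ) + 1) := by
      funext s
      by_cases hs : s = f n0
      · subst hs; simp [ha]
      · simp [ha, hs, Function.update_of_ne hs]
    have hlab : Lh a (f n0) = ℓ := by rw [hupd, Lh_update]
    have hapos : ∀ s, 0 < a s := fun s => by simp only [ha]; positivity
    have hsum : Summable (fun n => |c n| * B) := h2.mul_right B
    have hval : ∀ n, n ≠ n0 → |c n * (a (f n) * Lh a (f n))| ≤ |c n| * B := by
      intro n hn
      by_cases hc : c n = 0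
      · simp [hc]
      · have hne : f n ≠ f n0 := fun h => hn (hinj _ _ hc hn0 h)
        have hav : a (f n) = (a0 (f n) : ℝ) + 1 := by rw [hupd, Function.update_of_ne hne]
        rw [abs_mul, abs_mul, abs_of_nonneg (hapos _).le]
        refine mul_le_mul_of_nonneg_left ?_ (abs_nonneg _)
        have h5 := mul_le_mul_of_nonneg_left (abs_Lh_le a (fun s => (hapos s).le) (f n)) (hapos (f n)).le
        have h6 := haB (f n)
        rw [← hav] at h6
        linarith
    -- bound on all terms
    have hfull : ∀ n, |c n * (a (f n) * Lh a (f n))| ≤ |c n| * (B + R + 1) := by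
      intro n
      rw [abs_mul, abs_mul, abs_of_nonneg (hapos _).le]
      refine mul_le_mul_of_nonneg_left ?_ (abs_nonneg _)
      have h5 := mul_le_mul_of_nonneg_left (abs_Lh_le a (fun s => (hapos s).le) (f n)) (hapos (f n)).le
      have h6 : a (f n) ≤ B + R + 1 := by
        rw [hupd]
        by_cases hs : f n = f n0
        · rw [hs, Function.update_self]; linarith
        · rw [Function.update_of_ne hs]
          have := haB (f n)
          have hR0 : (0:ℝ) ≤ R := Nat.cast_nonneg R
          linarith
      linarith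
    have hsT : Summable (fun n => c n * (a (f n) * Lh a (f n))) :=
      Summable.of_abs (Summable.of_nonneg_of_le (fun _ => abs_nonneg _) hfull (h2.mul_right _))
    have hsS : Summable (fun n => |c n| * a (f n)) := by
      refine Summable.of_nonneg_of_le (fun n => mul_nonneg (abs_nonneg _) (hapos _).le)
        (fun n => ?_) (h2.mul_right (B + R + 1))
      refine mul_le_mul_of_nonneg_left ?_ (abs_nonneg _)
      rw [hupd]
      by_cases hs : f n = f n0
      · rw [hs, Function.update_self]; linarith
      · rw [Function.update_of_ne hs]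
        have := haB (f n)
        have hR0 : (0:ℝ) ≤ R := Nat.cast_nonneg R
        linarith
    have hS : 0 < ∑' n, |c n| * a (f n) :=
      hsS.tsum_pos (fun n => mul_nonneg (abs_nonneg _) (hapos _).le) n0
        (mul_pos (abs_pos.2 hn0) (hapos _))
    have hT : (∑' n, c n * (a (f n) * Lh a (f n))) ≠ 0 := by
      intro h0
      rw [hsT.tsum_eq_add_tsum_ite n0] at h0
      have hmain : |c n0 * (a (f n0) * Lh a (f n0))| = |c n0| * |ℓ| * ((R:ℝ) + 1) := by
        rw [hlab, hupd, Function.update_self, abs_mul, abs_mul,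
          abs_of_nonneg (by positivity : (0:ℝ) ≤ (R:ℝ) + 1)]
        ring
      have hrest : |∑' n, (if n = n0 then 0 else c n * (a (f n) * Lh a (f n)))| ≤
          ∑' n, |c n| * B := by
        have hle : ∀ n, |(if n = n0 then 0 else c n * (a (f n) * Lh a (f n)))| ≤ |c n| * B := by
          intro n
          by_cases hn : n = n0
          · simp only [hn, if_true, abs_zero]; positivity
          · simp only [hn, if_false]; exact hval n hn
        have hs1 : Summable (fun n => |(if n = n0 then 0 else c n * (a (f n) * Lh a (f n)))|) :=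
          Summable.of_nonneg_of_le (fun _ => abs_nonneg _) hle hsum
        have h5 : ‖∑' n, (if n = n0 then 0 else c n * (a (f n) * Lh a (f n)))‖ ≤
            ∑' n, ‖(if n = n0 then 0 else c n * (a (f n) * Lh a (f n)))‖ :=
          norm_tsum_le_tsum_norm hs1
        exact h5.trans (Summable.tsum_le_tsum hle hs1 hsum)
      have h7 : c n0 * (a (f n0) * Lh a (f n0)) =
          -(∑' n, (if n = n0 then 0 else c n * (a (f n) * Lh a (f n)))) := by linarith
      rw [h7, abs_neg] at hmain
      have : |c n0| * |ℓ| * ((R:ℝ) + 1) ≤ ∑' n, |c n| * B := hmain ▸ hrest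
      nlinarith
    simp only [Lh]
    exact div_ne_zero (neg_ne_zero.2 hT) hS.ne'

end Pool.Agent.Helper630.Remotal
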