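import Pool.Agent.Helper630.Remotal.Tr

/-!
A sequence of strength functions on codes that approximates every finite pattern.
-/

set_option autoImplicit false

open Filter Topology

namespace Pool.Agent.Helper630.Remotal

/-- Codes as functions on finite paths. -/
noncomputable def enc : Tr → List ℕ → Option (ℕ → ℝ)
  | Tr.base => fun _ => none
  | Tr.node f c => fun p => match p with
    | [] => some c
    | n :: q => enc (f n) q

theorem enc_injective : Function.Injective enc := by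
  intro s
  induction s with
  | base =>
    intro t h
    cases t with
    | base => rfl
    | node f c => have := congrFun h []; simp [enc] at this
  | node f c ih =>
    intro t h
    cases t with
    | base => have := congrFun h []; simp [enc] at this
    | node g d =>
      have h1 : c = d := by have := congrFun h []; simpa [enc] using this
      have h2 : f = g := by
        funext n
        apply ih n
        funext q
        have := congrFun h (n :: q)
        simpa [enc] using this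
      rw [h1, h2]

theorem exists_code : ∃ e : Tr → ℝ, Function.Injective e := by
  have h1 : Cardinal.mk (List ℕ → Option (ℕ → ℝ)) ≤ Cardinal.mk ℝ := by
    rw [Cardinal.mk_real]
    have h2 : Cardinal.mk (Option (ℕ → ℝ)) ≤ Cardinal.continuum := by
      rw [Cardinal.mk_option]
      have h3 : Cardinal.mk (ℕ → ℝ) = Cardinal.continuum := by
        simp [Cardinal.mk_real]
      rw [h3]
      exact (Cardinal.add_eq_left Cardinal.aleph0_le_continuum
        (Cardinal.one_le_aleph0.trans Cardinal.aleph0_le_continuum)).le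
    calc Cardinal.mk (List ℕ → Option (ℕ → ℝ))
        = Cardinal.mk (Option (ℕ → ℝ)) ^ Cardinal.mk (List ℕ) := by simp
      _ ≤ Cardinal.continuum ^ Cardinal.mk (List ℕ) := Cardinal.power_le_power_right h2
      _ = Cardinal.continuum := by simp
  obtain ⟨g⟩ := Cardinal.le_def _ _ |>.1 h1
  exact ⟨fun t => g (enc t), g.injective.comp enc_injective⟩

/-- The chosen code. -/
noncomputable def cd : Tr → ℝ := exists_code.choose

theorem cd_injective : Function.Injective cd := exists_code.choose_spec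

/-- total mass of a finitely supported function. -/
noncomputable def tot {α : Type} (g : α →₀ ℕ) : ℕ := g.sum (fun _ x => x)

theorem le_tot {α : Type} (g : α →₀ ℕ) (x : α) : g x ≤ tot g := by
  classical
  by_cases h : x ∈ g.support
  · exact Finset.single_le_sum (f := fun t => g t) (fun _ _ => Nat.zero_le _) h
  · rw [Finsupp.notMem_support_iff.1 h]; exact Nat.zero_le _

theorem tot_mapDomain {α β : Type} (g : α →₀ ℕ) (f : α → β) : tot (g.mapDomain f) = tot g := by
  unfold tot
  rw [Finsupp.sum_mapDomain_index]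
  · intro _; rfl
  · intros; rfl

/-- strengths for a pair `(n, g)`. -/
noncomputable def wt (j : ℕ × (ℤ →₀ ℕ)) (t : Tr) : ℝ :=
  ((j.2 ⌊(2:ℝ) ^ j.1 * cd t⌋ : ℕ) + 1) / (1 + (tot j.2 : ℕ))

theorem wt_pos (j : ℕ × (ℤ →₀ ℕ)) (t : Tr) : 0 < wt j t := by
  unfold wt; positivity

theorem wt_le_one (j : ℕ × (ℤ →₀ ℕ)) (t : Tr) : wt j t ≤ 1 := by
  unfold wt
  rw [div_le_one (by positivity)]
  have : ((j.2 ⌊(2:ℝ) ^ j.1 * cd t⌋ : ℕ) : ℝ) ≤ (tot j.2 : ℕ) := by exact_mod_cast le_tot _ _
  linarith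

/-- the pattern at level `n`. -/
noncomputable def pat (a : Tr →₀ ℕ) (n : ℕ) : ℤ →₀ ℕ := a.mapDomain (fun t => ⌊(2:ℝ) ^ n * cd t⌋)

theorem floor_ne (s t : Tr) (h : s ≠ t) :
    ∀ᶠ n : ℕ in atTop, ⌊(2:ℝ) ^ n * cd s⌋ ≠ ⌊(2:ℝ) ^ n * cd t⌋ := by
  have hne : cd s - cd t ≠ 0 := sub_ne_zero.2 (fun h' => h (cd_injective h'))
  have h1 : Tendsto (fun n : ℕ => (2:ℝ) ^ n) atTop atTop :=
    tendsto_pow_atTop_atTop_of_one_lt (by norm_num)
  have h2 := h1.eventually_ge_atTop (1 / |cd s - cd t|)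
  filter_upwards [h2] with n hn heq
  have h3 : |(2:ℝ) ^ n * cd s - (2:ℝ) ^ n * cd t| < 1 := Int.abs_sub_lt_one_of_floor_eq_floor heq
  rw [← mul_sub, abs_mul, abs_of_pos (by positivity : (0:ℝ) < 2 ^ n)] at h3
  rw [div_le_iff₀ (abs_pos.2 hne)] at hn
  linarith

theorem pat_apply (a : Tr →₀ ℕ) (t : Tr) :
    ∀ᶠ n : ℕ in atTop, pat a n ⌊(2:ℝ) ^ n * cd t⌋ = a t := by
  classical
  have h1 : ∀ᶠ n : ℕ in atTop, ∀ s ∈ a.support, s ≠ t →
      ⌊(2:ℝ) ^ n * cd s⌋ ≠ ⌊(2:ℝ) ^ n * cd t⌋ := by
    rw [Filter.eventually_all_finset]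
    intro s _
    by_cases h : s = t
    · exact Eventually.of_forall (fun n h' => absurd h h')
    · filter_upwards [floor_ne s t h] with n hn _ using hn
  filter_upwards [h1] with n hn
  unfold pat
  rw [Finsupp.mapDomain, Finsupp.sum_apply, Finsupp.sum]
  by_cases ht : t ∈ a.support
  · rw [Finset.sum_eq_single t]
    · simp
    · intro s hs hst
      rw [Finsupp.single_apply, if_neg (hn s hs hst)]
    · intro h; exact absurd ht h
  · rw [Finsupp.notMem_support_iff.1 ht]
    apply Finset.sum_eq_zero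
    intro s hs
    have hst : s ≠ t := by rintro rfl; exact ht hs
    rw [Finsupp.single_apply, if_neg (hn s hs hst)]

theorem wt_pat (a : Tr →₀ ℕ) (n : ℕ) (t : Tr) :
    (1 + (tot a : ℕ) : ℝ) * wt (n, pat a n) t = (pat a n ⌊(2:ℝ) ^ n * cd t⌋ : ℕ) + 1 := by
  unfold wt
  simp only
  rw [pat, tot_mapDomain]
  field_simp

theorem wt_tendsto (a : Tr →₀ ℕ) (t : Tr) :
    Tendsto (fun n => (1 + (tot a : ℕ) : ℝ) * wt (n, pat a n) t) atTop (𝓝 ((a t : ℝ) + 1)) := by
  simp only [wt_pat]
  apply tendsto_const_nhds.congr'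
  filter_upwards [pat_apply a t] with n hn
  rw [hn]

theorem wt_le_tot (a : Tr →₀ ℕ) (n : ℕ) (t : Tr) :
    (1 + (tot a : ℕ) : ℝ) * wt (n, pat a n) t ≤ 1 + (tot a : ℕ) := by
  have := wt_le_one (n, pat a n) t
  have h : (0:ℝ) < 1 + (tot a : ℕ) := by positivity
  nlinarith

theorem exists_enum : ∃ φ : ℕ → ℕ × (ℤ →₀ ℕ), Function.Surjective φ :=
  exists_surjective_nat _

/-- enumeration of the index set. -/
noncomputable def en : ℕ → ℕ × (ℤ →₀ ℕ) := exists_enum.choose

theorem en_surjective : Function.Surjective en := exists_enum.choose_spec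

/-- the strengths. -/
noncomputable def pw (m : ℕ) (t : Tr) : ℝ := wt (en m) t

theorem pw_pos (m : ℕ) (t : Tr) : 0 < pw m t := wt_pos _ _
theorem pw_le_one (m : ℕ) (t : Tr) : pw m t ≤ 1 := wt_le_one _ _

/-- Labels as sequences. -/
noncomputable def Lab (t : Tr) (m : ℕ) : ℝ := Lh (pw m) t

theorem abs_Lab_le (t : Tr) (m : ℕ) : |Lab t m| ≤ 1 := abs_Lh_le _ (fun s => (pw_pos m s).le) t

/-- The domination property: a good code is not dominated by summable combinations of other codes,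
even after multiplication with its label. -/
theorem not_dominated (t : Tr) (hg : Good t) (ι : Type) (r : ι → Tr) (u : ι → ℝ) (hu : ∀ i, 0 ≤ u i)
    (hs : Summable u) (hr : ∀ i, u i ≠ 0 → r i ≠ t) (ε : ℝ) (hε : 0 < ε) :
    ∃ m, (∑' i, u i * pw m (r i)) < ε * (pw m t * |Lab t m|) := by
  classical
  by_contra hcon
  push Not at hcon
  obtain ⟨a0, ha0⟩ := exists_pattern t hg
  set ℓ := Lh (fun s => (a0 s : ℝ) + 1) t with hℓ
  obtain ⟨R, hR⟩ := exists_nat_gt ((∑' i, u i * ((tot a0 : ℝ) + 1)) / (ε * |ℓ|))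
  have hcl : 0 < ε * |ℓ| := mul_pos hε (abs_pos.2 ha0)
  rw [div_lt_iff₀ hcl] at hR
  set a : Tr →₀ ℕ := a0.update t R with ha
  have hupd : (fun s => (a s : ℝ) + 1) = Function.update (fun s => (a0 s : ℝ) + 1) t ((R : ℝ) + 1) := by
    funext s
    by_cases hs : s = t
    · subst hs; simp [ha]
    · simp [ha, hs]
  have hlab : Lh (fun s => (a s : ℝ) + 1) t = ℓ := by rw [hupd, Lh_update]
  set A : ℝ := 1 + (tot a : ℕ) with hA
  have hApos : 0 < A := by positivity
  choose φ hφ using fun n => en_surjective (n, pat a n)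
  have hpw : ∀ n s, pw (φ n) s = wt (n, pat a n) s := fun n s => by rw [pw, hφ]
  -- limits
  have h1 : ∀ s, Tendsto (fun n => A * pw (φ n) s) atTop (𝓝 ((a s : ℝ) + 1)) := by
    intro s; simp only [hpw]; exact wt_tendsto a s
  have h2 : ∀ n s, A * pw (φ n) s ≤ A := by
    intro n s; rw [hpw]; exact wt_le_tot a n s
  have h3 : ∀ n s, 0 ≤ A * pw (φ n) s := fun n s => mul_nonneg hApos.le (pw_pos _ _).le
  have h4 : Tendsto (fun n => Lh (fun s => A * pw (φ n) s) t) atTop (𝓝 ℓ) := by
    rw [← hlab]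
    exact Lh_tendsto t hg (fun n s => A * pw (φ n) s) _ A h3 h2 (fun s => by positivity) h1
  have h5 : Tendsto (fun n => ε * ((A * pw (φ n) t) * |Lh (fun s => A * pw (φ n) s) t|)) atTop
      (𝓝 (ε * (((a t : ℝ) + 1) * |ℓ|))) := ((h1 t).mul h4.abs).const_mul ε
  have h6 : Tendsto (fun n => ∑' i, u i * (A * pw (φ n) (r i))) atTop
      (𝓝 (∑' i, u i * ((a (r i) : ℝ) + 1))) := by
    refine tendsto_tsum_of_dominated_convergence (hs.mul_right A) ?_ ?_
    · intro i; exact (h1 _).const_mul _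
    · refine Eventually.of_forall (fun n i => ?_)
      rw [Real.norm_eq_abs, abs_of_nonneg (mul_nonneg (hu i) (h3 _ _))]
      exact mul_le_mul_of_nonneg_left (h2 _ _) (hu i)
  have h7 : ∀ n, ε * ((A * pw (φ n) t) * |Lh (fun s => A * pw (φ n) s) t|) ≤
      ∑' i, u i * (A * pw (φ n) (r i)) := by
    intro n
    have h8 := hcon (φ n)
    have h9 : (∑' i, u i * (A * pw (φ n) (r i))) = A * ∑' i, u i * pw (φ n) (r i) := by
      rw [← tsum_mul_left]; congr 1; funext i; ring
    rw [h9, Lh_scale _ _ hApos.ne']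
    have : ε * (A * pw (φ n) t * |Lh (pw (φ n)) t|) = A * (ε * (pw (φ n) t * |Lab t (φ n)|)) := by
      rw [Lab]; ring
    rw [this]
    exact mul_le_mul_of_nonneg_left h8 hApos.le
  have h10 := le_of_tendsto_of_tendsto' h5 h6 h7
  have h11 : (a t : ℝ) = R := by simp [ha]
  have h12 : (∑' i, u i * ((a (r i) : ℝ) + 1)) ≤ ∑' i, u i * ((tot a0 : ℝ) + 1) := by
    have hle : ∀ i, u i * ((a (r i) : ℝ) + 1) ≤ u i * ((tot a0 : ℝ) + 1) := by
      intro i
      by_cases h0 : u i = 0
      · simp [h0]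
      · have hne := hr i h0
        have h13 : a (r i) = a0 (r i) := by simp [ha, hne]
        have h14 : ((a0 (r i) : ℕ) : ℝ) ≤ (tot a0 : ℝ) := by exact_mod_cast le_tot a0 (r i)
        refine mul_le_mul_of_nonneg_left ?_ (hu i)
        rw [h13]; linarith
    refine Summable.tsum_le_tsum hle ?_ (hs.mul_right _)
    exact Summable.of_nonneg_of_le (fun i => mul_nonneg (hu i) (by positivity)) hle (hs.mul_right _)
  rw [h11] at h10
  have h15 : ε * (((R:ℝ) + 1) * |ℓ|) = (R:ℝ) * (ε * |ℓ|) + ε * |ℓ| := by ring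
  linarith

end Pool.Agent.Helper630.Remotal
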